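import Pool.Agent.N252.TV.O

/-!
# The energy profile of a measure on the line

`bz ν x` is the integral of `|t|` over the `t` such that `x` is between `0` and `t`.
-/

set_option autoImplicit false
open MeasureTheory Filter Topology
open scoped ENNReal NNReal BoundedContinuousFunction ContDiff

namespace Pool.Agent.Helper82.BW

noncomputable section

/-- the integral of `|t|` over the `t` such that `x` is between `0` and `t` -/
def bz (ν : Measure ℝ) (x : ℝ) : ℝ := ∫ t in {t : ℝ | x ∈ Set.uIcc 0 t}, |t| ∂ν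

lemma bz_nn (ν : Measure ℝ) (x : ℝ) : 0 ≤ bz ν x := integral_nonneg fun _ => abs_nonneg _

lemma btw_closed : IsClosed {p : ℝ × ℝ | p.1 ∈ Set.uIcc 0 p.2} := by
  have e : {p : ℝ × ℝ | p.1 ∈ Set.uIcc 0 p.2} =
      {p : ℝ × ℝ | min 0 p.2 ≤ p.1} ∩ {p : ℝ × ℝ | p.1 ≤ max 0 p.2} := by
    ext p; rfl
  rw [e]
  exact (isClosed_le (by fun_prop) (by fun_prop)).inter (isClosed_le (by fun_prop) (by fun_prop))

/-- the kernel -/
def ker (p : ℝ × ℝ) : ℝ := Set.indicator {p : ℝ × ℝ | p.1 ∈ Set.uIcc 0 p.2} (fun p => |p.2|) p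

lemma ker_meas : Measurable ker := by
  unfold ker
  exact (continuous_abs.comp continuous_snd).measurable.indicator btw_closed.measurableSet

lemma ker_nn (p : ℝ × ℝ) : 0 ≤ ker p := Set.indicator_nonneg (fun _ _ => abs_nonneg _) _

lemma ker_eq (x t : ℝ) : ker (x, t) = Set.indicator (Set.uIcc 0 t) (fun _ => |t|) x := by
  unfold ker
  by_cases h : x ∈ Set.uIcc 0 t
  · rw [Set.indicator_of_mem (s := {p : ℝ × ℝ | p.1 ∈ Set.uIcc 0 p.2}) (by exact h),
      Set.indicator_of_mem h]
  · rw [Set.indicator_of_notMem (s := {p : ℝ × ℝ | p.1 ∈ Set.uIcc 0 p.2}) (by exact h),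
      Set.indicator_of_notMem h]

lemma bz_eq (ν : Measure ℝ) (x : ℝ) : bz ν x = ∫ t, ker (x, t) ∂ν := by
  unfold bz
  have hm : MeasurableSet {t : ℝ | x ∈ Set.uIcc 0 t} :=
    (btw_closed.preimage (by fun_prop : Continuous fun t : ℝ => (x, t))).measurableSet
  rw [← integral_indicator hm]
  rfl

/-- the inner integral -/
lemma inner_eq {g : ℝ → ℝ} (t : ℝ) :
    ∫ x, g x * ker (x, t) = t * ∫ s in (0 : ℝ)..t, g s := by
  have e : ∀ x, g x * ker (x, t) = Set.indicator (Set.uIcc 0 t) (fun x => g x * |t|) x := by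
    intro x
    rw [ker_eq]
    by_cases h : x ∈ Set.uIcc 0 t
    · rw [Set.indicator_of_mem h, Set.indicator_of_mem h]
    · rw [Set.indicator_of_notMem h, Set.indicator_of_notMem h, mul_zero]
  simp only [e]
  rw [integral_indicator measurableSet_uIcc, integral_mul_const]
  rcases le_total 0 t with h | h
  · rw [Set.uIcc_of_le h, abs_of_nonneg h, intervalIntegral.integral_of_le h,
      integral_Icc_eq_integral_Ioc, mul_comm]
  · rw [Set.uIcc_of_ge h, abs_of_nonpos h, intervalIntegral.integral_of_ge h,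
      integral_Icc_eq_integral_Ioc]
    ring

lemma ker_itg (ν : Measure ℝ) [IsFiniteMeasure ν] (h2 : Integrable (fun x => x ^ 2) ν) {g : ℝ → ℝ}
    (hg : Measurable g) {K : ℝ} (hK : ∀ x, |g x| ≤ K) :
    Integrable (fun p : ℝ × ℝ => g p.1 * ker p) (volume.prod ν) := by
  have K0 : 0 ≤ K := (abs_nonneg _).trans (hK 0)
  have mF : Measurable (fun p : ℝ × ℝ => g p.1 * ker p) := (hg.comp measurable_fst).mul ker_meas
  rw [integrable_prod_iff' mF.aestronglyMeasurable]
  have e1 : ∀ t : ℝ, (fun x => g x * ker (x, t)) =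
      Set.indicator (Set.uIcc 0 t) (fun x => g x * |t|) := by
    intro t
    funext x
    rw [ker_eq]
    by_cases h : x ∈ Set.uIcc 0 t
    · rw [Set.indicator_of_mem h, Set.indicator_of_mem h]
    · rw [Set.indicator_of_notMem h, Set.indicator_of_notMem h, mul_zero]
  have fin : ∀ t : ℝ, volume (Set.uIcc (0 : ℝ) t) < ⊤ := fun t => isCompact_uIcc.measure_lt_top
  have i1 : ∀ t : ℝ, Integrable (fun x => g x * ker (x, t)) := by
    intro t
    rw [e1, integrable_indicator_iff measurableSet_uIcc]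
    have hf : IsFiniteMeasure (volume.restrict (Set.uIcc (0 : ℝ) t)) := ⟨by
      rw [Measure.restrict_apply_univ]; exact fin t⟩
    refine Integrable.of_bound (hg.mul_const _).aestronglyMeasurable (K * |t|)
      (ae_of_all _ fun x => ?_)
    rw [Real.norm_eq_abs, abs_mul, abs_abs]
    exact mul_le_mul_of_nonneg_right (hK x) (abs_nonneg _)
  refine ⟨ae_of_all _ i1, ?_⟩
  have mG : Measurable (fun p : ℝ × ℝ => ‖g p.1 * ker p‖) := mF.norm
  refine (h2.const_mul K).mono' ?_ (ae_of_all _ fun t => ?_)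
  · exact (mG.comp measurable_swap).stronglyMeasurable.integral_prod_right'.aestronglyMeasurable
  · rw [Real.norm_eq_abs, abs_of_nonneg (integral_nonneg fun _ => norm_nonneg _)]
    have h3 : ∀ x, ‖g x * ker (x, t)‖ ≤ K * ker (x, t) := by
      intro x
      rw [Real.norm_eq_abs, abs_mul, abs_of_nonneg (ker_nn _)]
      exact mul_le_mul_of_nonneg_right (hK x) (ker_nn _)
    have i3 : Integrable (fun x => K * ker (x, t)) := by
      have e3 : (fun x => ker (x, t)) = Set.indicator (Set.uIcc 0 t) (fun _ => |t|) := by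
        funext x; exact ker_eq x t
      refine Integrable.const_mul ?_ K
      rw [e3, integrable_indicator_iff measurableSet_uIcc]
      exact integrableOn_const (fin t).ne
    refine (integral_mono (i1 t).norm i3 h3).trans ?_
    have e4 := inner_eq (g := fun _ => K) t
    rw [e4]
    rw [intervalIntegral.integral_const, smul_eq_mul, sub_zero]
    exact le_of_eq (by ring)

lemma bz_fub (ν : Measure ℝ) [IsFiniteMeasure ν] (h2 : Integrable (fun x => x ^ 2) ν) {g : ℝ → ℝ}
    (hg : Measurable g) {K : ℝ} (hK : ∀ x, |g x| ≤ K) :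
    Integrable (fun x => g x * bz ν x) ∧
      ∫ x, g x * bz ν x = ∫ t, t * (∫ s in (0 : ℝ)..t, g s) ∂ν := by
  have h := ker_itg ν h2 hg hK
  have e : ∀ x, g x * bz ν x = ∫ t, g x * ker (x, t) ∂ν := by
    intro x
    rw [bz_eq, integral_const_mul]
  simp only [e]
  refine ⟨h.integral_prod_left, ?_⟩
  rw [integral_integral_swap (f := fun x t => g x * ker (x, t)) h]
  exact integral_congr_ae (ae_of_all _ fun t => inner_eq t)

lemma bz_itg (ν : Measure ℝ) [IsFiniteMeasure ν] (h2 : Integrable (fun x => x ^ 2) ν) :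
    Integrable (bz ν) ∧ ∫ x, bz ν x = ∫ t, t ^ 2 ∂ν := by
  obtain ⟨h3, h4⟩ := bz_fub ν h2 (g := fun _ => 1) measurable_const (K := 1) fun x => by simp
  simp only [one_mul] at h3 h4
  refine ⟨h3, ?_⟩
  rw [h4]
  refine integral_congr_ae (ae_of_all _ fun t => ?_)
  show t * (∫ _ in (0 : ℝ)..t, (1 : ℝ)) = t ^ 2
  rw [intervalIntegral.integral_const, smul_eq_mul, sub_zero]
  ring

end

end Pool.Agent.Helper82.BW
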