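import Pool.Agent.Helper82.BW.Len

/-!
# Scaling, and the Gaussian law
-/

set_option autoImplicit false
open MeasureTheory Filter Topology ProbabilityTheory
open scoped ENNReal NNReal BoundedContinuousFunction ContDiff

namespace Pool.Agent.Helper82.BW

noncomputable section

open Pool.Agent.N252.TV

lemma bz_smul (P : Measure ℝ) {W : ℝ} (hW : 0 ≤ W) (x : ℝ) :
    bz (ENNReal.ofReal W • P) x = W * bz P x := by
  unfold bz
  rw [Measure.restrict_smul, integral_smul_measure, ENNReal.toReal_ofReal hW, smul_eq_mul]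

lemma geo_smul (P : Measure ℝ) [IsFiniteMeasure P] {W : ℝ} (hW : 0 ≤ W) (g : ℝ → ℝ) :
    ∫ x, g x * √(dens (ENNReal.ofReal W • P) x * bz (ENNReal.ofReal W • P) x) =
      W * ∫ x, g x * √(dens P x * bz P x) := by
  rw [← integral_const_mul]
  have h1 := Measure.rnDeriv_smul_left_of_ne_top P (volume : Measure ℝ)
    (ENNReal.ofReal_ne_top (r := W))
  refine integral_congr_ae ?_
  filter_upwards [h1] with x hx
  have e1 : dens (ENNReal.ofReal W • P) x = W * dens P x := by
    unfold dens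
    rw [hx, Pi.smul_apply, smul_eq_mul, ENNReal.toReal_mul, ENNReal.toReal_ofReal hW]
  rw [e1, bz_smul P hW]
  have e2 : W * dens P x * (W * bz P x) = W ^ 2 * (dens P x * bz P x) := by ring
  rw [e2, Real.sqrt_mul (by positivity), Real.sqrt_sq hW]
  ring

lemma pdf_deriv {v : ℝ≥0} (hv : v ≠ 0) (t : ℝ) :
    HasDerivAt (fun t => -(v * gaussianPDFReal 0 v t)) (t * gaussianPDFReal 0 v t) t := by
  have hv' : (v : ℝ) ≠ 0 := by exact_mod_cast hv
  have h1 : HasDerivAt (fun t : ℝ => -(t - 0) ^ 2 / (2 * v)) (-(2 * t) / (2 * v)) t := by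
    have := ((((hasDerivAt_id t).sub_const 0).pow 2).neg).div_const (2 * (v : ℝ))
    simpa using this
  have h2 := ((h1.exp).const_mul ((√(2 * Real.pi * v))⁻¹)).const_mul (v : ℝ)
  have h3 := h2.neg
  have e : -((v : ℝ) * ((√(2 * Real.pi * v))⁻¹ * (Real.exp (-(t - 0) ^ 2 / (2 * v)) *
      (-(2 * t) / (2 * v))))) = t * gaussianPDFReal 0 v t := by
    unfold gaussianPDFReal
    field_simp
  rw [← e]
  exact h3

lemma pdf_tend {v : ℝ≥0} (hv : v ≠ 0) :
    Tendsto (fun t => -(v * gaussianPDFReal 0 v t)) atTop (𝓝 0) := by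
  have hv' : (0 : ℝ) < v := by exact_mod_cast (pos_iff_ne_zero.2 hv)
  have h1 : Tendsto (fun t : ℝ => -(t - 0) ^ 2 / (2 * v)) atTop atBot := by
    have h2 : Tendsto (fun t : ℝ => t ^ 2 * (2 * (v : ℝ))⁻¹) atTop atTop :=
      (tendsto_pow_atTop two_ne_zero).atTop_mul_const (by positivity)
    have h3 := tendsto_neg_atTop_atBot.comp h2
    refine h3.congr fun t => ?_
    simp only [Function.comp, sub_zero]
    ring
  have h4 := Real.tendsto_exp_atBot.comp h1
  have h5 := ((h4.const_mul ((√(2 * Real.pi * v))⁻¹)).const_mul (v : ℝ)).neg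
  simp only [mul_zero, neg_zero] at h5
  exact h5

lemma pdf_even (v : ℝ≥0) (t : ℝ) : gaussianPDFReal 0 v (-t) = gaussianPDFReal 0 v t := by
  unfold gaussianPDFReal
  simp

lemma tail_gauss {v : ℝ≥0} (hv : v ≠ 0) {x : ℝ} (hx : 0 < x) :
    ∫ t in Set.Ioi x, gaussianPDFReal 0 v t * |t| = v * gaussianPDFReal 0 v x := by
  have e : ∫ t in Set.Ioi x, gaussianPDFReal 0 v t * |t| =
      ∫ t in Set.Ioi x, t * gaussianPDFReal 0 v t := by
    refine setIntegral_congr_fun measurableSet_Ioi fun t ht => ?_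
    have : 0 < t := hx.trans ht
    simp only [abs_of_pos this, mul_comm]
  rw [e, integral_Ioi_of_hasDerivAt_of_nonneg' (fun t _ => pdf_deriv hv t) (fun t ht => ?_)
    (pdf_tend hv)]
  · ring
  · have : 0 < t := hx.trans ht
    exact mul_nonneg this.le (gaussianPDFReal_nonneg _ _ _)

/-- the tail integral of the Gaussian law -/
lemma bz_gauss {v : ℝ≥0} (hv : v ≠ 0) (x : ℝ) (hx : x ≠ 0) :
    bz (gaussianReal 0 v) x = v * gaussianPDFReal 0 v x := by
  have hm : MeasurableSet {t : ℝ | x ∈ Set.uIcc 0 t} :=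
    (btw_closed.preimage (by fun_prop : Continuous fun t : ℝ => (x, t))).measurableSet
  have e1 : bz (gaussianReal 0 v) x =
      ∫ t in {t : ℝ | x ∈ Set.uIcc 0 t}, gaussianPDFReal 0 v t * |t| := by
    unfold bz
    rw [← integral_indicator hm, integral_gaussianReal_eq_integral_smul hv, ← integral_indicator hm]
    refine integral_congr_ae (ae_of_all _ fun t => ?_)
    by_cases h : t ∈ {t : ℝ | x ∈ Set.uIcc 0 t}
    · simp only [Set.indicator_of_mem h, smul_eq_mul]
    · simp only [Set.indicator_of_notMem h, smul_zero]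
  rw [e1]
  rcases lt_or_gt_of_ne hx with h | h
  · have e2 : {t : ℝ | x ∈ Set.uIcc 0 t} = Set.Iic x := by
      ext t
      simp only [Set.mem_ofPred_eq, Set.mem_Iic, Set.mem_uIcc]
      constructor
      · rintro (⟨h1, h2⟩ | ⟨h1, h2⟩)
        · linarith
        · exact h1
      · intro h1
        exact Or.inr ⟨h1, h.le⟩
    have e3 : ∫ t in Set.Iic x, gaussianPDFReal 0 v t * |t| =
        ∫ t in Set.Iic x, (fun t => gaussianPDFReal 0 v t * |t|) (-t) := by
      refine setIntegral_congr_fun measurableSet_Iic fun t _ => ?_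
      simp only [pdf_even, abs_neg]
    have e4 := integral_comp_neg_Iic x (fun t => gaussianPDFReal 0 v t * |t|)
    rw [e2, e3, e4, tail_gauss hv (by linarith), pdf_even]
  · have e2 : {t : ℝ | x ∈ Set.uIcc 0 t} = Set.Ici x := by
      ext t
      simp only [Set.mem_ofPred_eq, Set.mem_Ici, Set.mem_uIcc]
      constructor
      · rintro (⟨h1, h2⟩ | ⟨h1, h2⟩)
        · exact h2
        · linarith
      · intro h1
        exact Or.inl ⟨h.le, h1⟩
    rw [e2, integral_Ici_eq_integral_Ioi, tail_gauss hv h]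

lemma geo_gauss {v : ℝ≥0} (hv : v ≠ 0) (g : ℝ → ℝ) :
    ∫ x, g x * √(dens (gaussianReal 0 v) x * bz (gaussianReal 0 v) x) =
      √v * ∫ x, g x ∂(gaussianReal 0 v) := by
  have e1 : dens (gaussianReal 0 v) =ᵐ[volume] gaussianPDFReal 0 v := by
    have h1 : gaussianReal 0 v = volume.withDensity (gaussianPDF 0 v) := gaussianReal_of_var_ne_zero 0 hv
    have h2 := Measure.rnDeriv_withDensity (volume : Measure ℝ) (measurable_gaussianPDF 0 v)
    rw [← h1] at h2
    filter_upwards [h2] with x hx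
    unfold dens
    rw [hx, toReal_gaussianPDF]
  have e2 : ∫ x, g x ∂(gaussianReal 0 v) = ∫ x, gaussianPDFReal 0 v x • g x :=
    integral_gaussianReal_eq_integral_smul hv
  rw [e2, ← integral_const_mul]
  refine integral_congr_ae ?_
  have h0 : ∀ᵐ x ∂(volume : Measure ℝ), x ≠ 0 := by
    rw [ae_iff]; simp
  filter_upwards [e1, h0] with x hx hx0
  rw [hx, bz_gauss hv x hx0]
  have e3 : gaussianPDFReal 0 v x * (v * gaussianPDFReal 0 v x) =
      v * (gaussianPDFReal 0 v x) ^ 2 := by ring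
  rw [e3, Real.sqrt_mul (by positivity), Real.sqrt_sq (gaussianPDFReal_nonneg _ _ _), smul_eq_mul]
  ring

end

end Pool.Agent.Helper82.BW
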