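import Pool.Agent.Helper82.BW.Loc

/-!
# The geometric mean of the law and the energy law
-/

set_option autoImplicit false
open MeasureTheory Filter Topology
open scoped ENNReal NNReal BoundedContinuousFunction ContDiff

namespace Pool.Agent.Helper82.BW

noncomputable section

open Pool.Agent.N252.TV

/-- the density of `ν` (of its absolutely continuous part) -/
def dens (ν : Measure ℝ) (x : ℝ) : ℝ := (ν.rnDeriv volume x).toReal

lemma dens_nn (ν : Measure ℝ) (x : ℝ) : 0 ≤ dens ν x := ENNReal.toReal_nonneg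

lemma dens_meas (ν : Measure ℝ) : Measurable (dens ν) :=
  (Measure.measurable_rnDeriv ν volume).ennreal_toReal

lemma dens_itg (ν : Measure ℝ) [IsFiniteMeasure ν] : Integrable (dens ν) :=
  Measure.integrable_toReal_rnDeriv

lemma bz_meas (ν : Measure ℝ) [IsFiniteMeasure ν] : Measurable (bz ν) := by
  have e : bz ν = fun x => ∫ t, ker (x, t) ∂ν := funext fun x => bz_eq ν x
  rw [e]
  exact (ker_meas.stronglyMeasurable.integral_prod_right').measurable

/-- the weight -/
def cc (ε f h : ℝ) : ℝ := if h ≤ ε ^ 2 * f then 1 / ε else if f ≤ ε ^ 2 * h then ε else √(f / h)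

lemma cc_spec {ε f h : ℝ} (h0 : 0 < ε) (h1 : ε ≤ 1) (hf : 0 ≤ f) (hh : 0 ≤ h) :
    ε ≤ cc ε f h ∧ cc ε f h ≤ 1 / ε ∧ (cc ε f h * h + f / cc ε f h) / 2 ≤ √(f * h) + ε * (f + h) := by
  have e1 : ε ≤ 1 / ε := by rw [le_div_iff₀ h0]; nlinarith
  have sq0 : 0 ≤ √(f * h) := Real.sqrt_nonneg _
  unfold cc
  by_cases c1 : h ≤ ε ^ 2 * f
  · rw [if_pos c1]
    refine ⟨e1, le_rfl, ?_⟩
    have a1 : 1 / ε * h ≤ ε * f := by
      rw [one_div, inv_mul_le_iff₀ h0]
      nlinarith
    have a2 : f / (1 / ε) = ε * f := by rw [div_div_eq_mul_div, div_one, mul_comm]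
    rw [a2]
    nlinarith [mul_nonneg h0.le hh]
  · rw [if_neg c1]
    by_cases c2 : f ≤ ε ^ 2 * h
    · rw [if_pos c2]
      refine ⟨le_rfl, e1, ?_⟩
      have a1 : f / ε ≤ ε * h := by
        rw [div_le_iff₀ h0]
        nlinarith
      nlinarith [mul_nonneg h0.le hf]
    · rw [if_neg c2]
      push Not at c1 c2
      have hp : 0 < h := lt_of_le_of_lt (by positivity) c1
      have fp : 0 < f := lt_of_le_of_lt (by positivity) c2
      have r0 : 0 < f / h := div_pos fp hp
      have s0 : 0 < √(f / h) := Real.sqrt_pos.2 r0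
      refine ⟨?_, ?_, ?_⟩
      · refine Real.le_sqrt_of_sq_le ?_
        rw [le_div_iff₀ hp]; exact c2.le
      · rw [Real.sqrt_le_left (by positivity), div_pow, one_pow, div_le_div_iff₀ hp (by positivity)]
        linarith
      · have a1 : √(f / h) * h = √(f * h) := by
          have e : f * h = (f / h) * h ^ 2 := by field_simp
          rw [e, Real.sqrt_mul r0.le, Real.sqrt_sq hh]
        have a2 : f / √(f / h) = √(f * h) := by
          rw [div_eq_iff s0.ne', ← Real.sqrt_mul (by positivity)]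
          have e : f * h * (f / h) = f ^ 2 := by field_simp
          rw [e, Real.sqrt_sq hf]
        rw [a1, a2]
        have : 0 ≤ ε * (f + h) := by positivity
        linarith

variable {μ e : ℕ → Measure ℝ} {V M C : ℝ} {h : ℕ → ℝ}

/-- **Upper bound by the geometric mean.** -/
theorem len_lim (H : Pair μ e V M C h) {ν : Measure ℝ} [IsFiniteMeasure ν]
    (hw : ∀ g : ℝ →ᵇ ℝ, Tendsto (fun n => ∫ x, g x ∂(μ n)) atTop (𝓝 (∫ x, g x ∂ν)))
    (L : ℕ → (ℝ → ℝ) → ℝ)
    (hL : ∀ (n : ℕ) (g c : ℝ → ℝ) (ε : ℝ), 0 < ε → Measurable g → Measurable c → (∀ x, 0 ≤ g x) →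
      (∀ x, g x ≤ 1) → (∀ x, ε ≤ c x) → (∀ x, c x ≤ 1 / ε) →
      L n g ≤ (∫ x, g x * c x ∂(e n) + ∫ x, g x / c x ∂(μ n)) / 2) {δ : ℝ} (hδ : 0 < δ) :
    ∀ᶠ n in atTop, ∀ g : ℝ → ℝ, Measurable g → (∀ x, 0 ≤ g x) → (∀ x, g x ≤ 1) →
      L n g ≤ (∫ x, g x * √(dens ν x * bz ν x)) + δ := by
  have fμ := H.fμ
  have fe := H.fe
  have M0 := H.M0
  have V0 := H.V0
  have C0 := H.C0
  have h2 := fatou2 hw H.sq
  have hb := bz_itg ν h2.1
  -- masses
  obtain ⟨W, hW⟩ : ∃ W : ℝ, W = ν.real Set.univ := ⟨_, rfl⟩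
  have W0 : 0 ≤ W := by rw [hW]; exact measureReal_nonneg
  obtain ⟨F, hF⟩ : ∃ F : ℝ, F = ∫ x, dens ν x := ⟨_, rfl⟩
  have F0 : 0 ≤ F := by rw [hF]; exact integral_nonneg fun x => dens_nn ν x
  obtain ⟨B, hB⟩ : ∃ B : ℝ, B = ∫ x, bz ν x := ⟨_, rfl⟩
  have B0 : 0 ≤ B := by rw [hB]; exact integral_nonneg fun x => bz_nn ν x
  -- the small parameter
  obtain ⟨K, hK⟩ : ∃ K : ℝ, K = F + B + (M + C) + V + W + 1 := ⟨_, rfl⟩
  have K0 : 0 < K := by rw [hK]; positivity
  obtain ⟨ε, hε⟩ : ∃ ε : ℝ, ε = min 1 (δ / (4 * K)) := ⟨_, rfl⟩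
  have ε0 : 0 < ε := by rw [hε]; exact lt_min one_pos (by positivity)
  have ε1 : ε ≤ 1 := by rw [hε]; exact min_le_left _ _
  have εK : ε * K ≤ δ / 4 := by
    have : ε ≤ δ / (4 * K) := by rw [hε]; exact min_le_right _ _
    calc ε * K ≤ δ / (4 * K) * K := mul_le_mul_of_nonneg_right this K0.le
      _ = δ / 4 := by field_simp
  -- the radius
  obtain ⟨R, hR⟩ : ∃ R : ℝ, R = 8 * M / (ε * δ) + 1 := ⟨_, rfl⟩
  have R1 : 1 ≤ R := by
    rw [hR]
    have : 0 ≤ 8 * M / (ε * δ) := by positivity
    linarith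
  have R0 : 0 < R := by linarith
  have RM : M / R ^ 2 ≤ ε * δ / 8 := by
    rw [div_le_iff₀ (by positivity)]
    have h3 : R ≤ R ^ 2 := by nlinarith
    have h4 : M ≤ ε * δ / 8 * R := by
      rw [hR]
      have e : ε * δ / 8 * (8 * M / (ε * δ) + 1) = M + ε * δ / 8 := by field_simp
      rw [e]
      have : 0 < ε * δ := by positivity
      linarith
    exact h4.trans (mul_le_mul_of_nonneg_left h3 (by positivity))
  -- the small interval
  obtain ⟨b, b0, hb2⟩ : ∃ b : ℝ, 0 < b ∧ ∫ x in {x : ℝ | |x| < b}, bz ν x ≤ ε * δ / 4 := by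
    have t1 : Tendsto (fun k : ℕ => ∫ x in {x : ℝ | |x| < 1 / ((k : ℝ) + 1)}, bz ν x) atTop
        (𝓝 (∫ x in (⋂ k : ℕ, {x : ℝ | |x| < 1 / ((k : ℝ) + 1)}), bz ν x)) := by
      refine tendsto_setIntegral_of_antitone (fun k =>
        measurableSet_lt continuous_abs.measurable measurable_const) ?_ ⟨0, hb.1.integrableOn⟩
      intro k l hkl x hx
      refine lt_of_lt_of_le (show |x| < 1 / ((l : ℝ) + 1) from hx) ?_
      exact one_div_le_one_div_of_le (by positivity) (by exact_mod_cast Nat.succ_le_succ hkl)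
    have t2 : (⋂ k : ℕ, {x : ℝ | |x| < 1 / ((k : ℝ) + 1)}) ⊆ {0} := by
      intro x hx
      rw [Set.mem_iInter] at hx
      by_contra hne
      have hx0 : 0 < |x| := abs_pos.2 hne
      obtain ⟨k, hk⟩ := exists_nat_one_div_lt hx0
      exact absurd (show |x| < 1 / ((k : ℝ) + 1) from hx k) (not_lt.2 hk.le)
    have t3 : ∫ x in (⋂ k : ℕ, {x : ℝ | |x| < 1 / ((k : ℝ) + 1)}), bz ν x = 0 :=
      setIntegral_measure_zero _ (measure_mono_null t2 (by simp))
    rw [t3] at t1
    obtain ⟨k, hk⟩ := (t1.eventually_lt_const (by positivity : 0 < ε * δ / 4)).exists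
    exact ⟨1 / ((k : ℝ) + 1), by positivity, hk.le⟩
  -- the singular part
  obtain ⟨s, ms, hs1, hs2⟩ := Measure.mutuallySingular_singularPart ν volume
  -- the weight
  classical
  obtain ⟨c, hc⟩ : ∃ c : ℝ → ℝ, c = fun x => if R < |x| then ε else
      if |x| < b ∨ x ∉ s then 1 / ε else cc ε (dens ν x) (bz ν x) := ⟨_, rfl⟩
  have mb := bz_meas ν
  have mf := dens_meas ν
  have mabs : Measurable fun x : ℝ => |x| := continuous_abs.measurable
  have mcc : Measurable fun x => cc ε (dens ν x) (bz ν x) := by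
    unfold cc
    refine Measurable.ite (measurableSet_le mb (mf.const_mul _)) measurable_const ?_
    refine Measurable.ite (measurableSet_le mf (mb.const_mul _)) measurable_const ?_
    exact (mf.div mb).sqrt
  have mc : Measurable c := by
    rw [hc]
    refine Measurable.ite (measurableSet_lt measurable_const mabs) measurable_const ?_
    exact Measurable.ite ((measurableSet_lt mabs measurable_const).union ms.compl) measurable_const mcc
  have e1 : ε ≤ 1 / ε := by rw [le_div_iff₀ ε0]; nlinarith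
  have c1 : ∀ x, ε ≤ c x := by
    intro x
    rw [hc]
    dsimp only
    split_ifs
    · exact le_rfl
    · exact e1
    · exact (cc_spec ε0 ε1 (dens_nn ν x) (bz_nn ν x)).1
  have c2 : ∀ x, c x ≤ 1 / ε := by
    intro x
    rw [hc]
    dsimp only
    split_ifs
    · exact e1
    · exact le_rfl
    · exact (cc_spec ε0 ε1 (dens_nn ν x) (bz_nn ν x)).2.1
  have c0 : ∀ x, 0 < c x := fun x => lt_of_lt_of_le ε0 (c1 x)
  have d2 : ∀ x, 1 / c x ≤ 1 / ε := fun x => one_div_le_one_div_of_le ε0 (c1 x)
  -- convergence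
  have k1 := loc H hw R0.le (by positivity : 0 < ε * δ / 8)
  have k2 := tv_far H.osc hw b0 (by positivity : 0 < ε * δ / 8)
  filter_upwards [k1, k2] with n n1 n2 g mg g0 g1
  refine (hL n g c ε ε0 mg mc g0 g1 c1 c2).trans ?_
  -- indicator functions
  obtain ⟨I, hI⟩ : ∃ I : ℝ → ℝ, I = fun x => if |x| ≤ R then (1 : ℝ) else 0 := ⟨_, rfl⟩
  obtain ⟨J, hJ⟩ : ∃ J : ℝ → ℝ, J = fun x => if b ≤ |x| then (1 : ℝ) else 0 := ⟨_, rfl⟩
  have mI : Measurable I := by
    rw [hI]; exact Measurable.ite (measurableSet_le mabs measurable_const) measurable_const measurable_const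
  have mJ : Measurable J := by
    rw [hJ]; exact Measurable.ite (measurableSet_le measurable_const mabs) measurable_const measurable_const
  have I0 : ∀ x, 0 ≤ I x := fun x => by rw [hI]; dsimp only; split_ifs <;> norm_num
  have I1 : ∀ x, I x ≤ 1 := fun x => by rw [hI]; dsimp only; split_ifs <;> norm_num
  have J0 : ∀ x, 0 ≤ J x := fun x => by rw [hJ]; dsimp only; split_ifs <;> norm_num
  have J1 : ∀ x, J x ≤ 1 := fun x => by rw [hJ]; dsimp only; split_ifs <;> norm_num
  -- integrability
  have ib : ∀ (τ : Measure ℝ), IsFiniteMeasure τ → ∀ (k : ℝ → ℝ) (A : ℝ), Measurable k →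
      (∀ x, |k x| ≤ A) → Integrable k τ := fun τ _ k A mk bk =>
    Integrable.of_bound mk.aestronglyMeasurable A (ae_of_all _ bk)
  have gc0 : ∀ x, 0 ≤ g x * c x := fun x => mul_nonneg (g0 x) (c0 x).le
  have gc1 : ∀ x, g x * c x ≤ 1 / ε := fun x => by
    have := mul_le_mul (g1 x) (c2 x) (c0 x).le zero_le_one
    linarith
  have gd0 : ∀ x, 0 ≤ g x / c x := fun x => div_nonneg (g0 x) (c0 x).le
  have gd1 : ∀ x, g x / c x ≤ 1 / ε := fun x => by
    have e : g x / c x = g x * (1 / c x) := by ring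
    rw [e]
    have := mul_le_mul (g1 x) (d2 x) (one_div_pos.2 (c0 x)).le zero_le_one
    linarith
  have mgc : Measurable fun x => g x * c x := mg.mul mc
  have mgd : Measurable fun x => g x / c x := mg.div mc
  have em : (e n).real Set.univ ≤ M + C := H.emass n
  have mm : (μ n).real Set.univ = V := H.mass n
  -- T1 + T2
  have T12 : ∫ x, g x * c x ∂(e n) ≤ (∫ x, g x * c x * I x * bz ν x) + δ / 8 + ε * (M + C) := by
    have a1 := n1 (fun x => ε * (g x * c x * I x)) ((mgc.mul mI).const_mul ε) (fun x => by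
      rw [abs_of_nonneg (by have := gc0 x; have := I0 x; positivity)]
      have := mul_le_mul (gc1 x) (I1 x) (I0 x) (by positivity)
      have h5 := mul_le_mul_of_nonneg_left this ε0.le
      have e6 : ε * (1 / ε * 1) = 1 := by field_simp
      linarith) (fun x hx => by
      have : I x = 0 := by rw [hI]; dsimp only; rw [if_neg (not_le.2 hx)]
      rw [this]; ring)
    have e2 : ∫ x, ε * (g x * c x * I x) ∂(e n) = ε * ∫ x, g x * c x * I x ∂(e n) :=
      integral_const_mul _ _
    have e3 : ∫ x, ε * (g x * c x * I x) * bz ν x = ε * ∫ x, g x * c x * I x * bz ν x := by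
      rw [← integral_const_mul]
      congr 1; funext x; ring
    rw [e2, e3, ← mul_sub, abs_mul, abs_of_pos ε0] at a1
    have a2 : |∫ x, g x * c x * I x ∂(e n) - ∫ x, g x * c x * I x * bz ν x| ≤ δ / 8 := by
      have : ε * |∫ x, g x * c x * I x ∂(e n) - ∫ x, g x * c x * I x * bz ν x| ≤ ε * (δ / 8) := by
        linarith
      exact le_of_mul_le_mul_left this ε0
    have i1 : Integrable (fun x => g x * c x * I x) (e n) := ib _ (fe n) _ (1 / ε) (mgc.mul mI)
      fun x => by
        rw [abs_of_nonneg (mul_nonneg (gc0 x) (I0 x))]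
        have := mul_le_mul (gc1 x) (I1 x) (I0 x) (by positivity)
        linarith
    have a3 : ∫ x, g x * c x ∂(e n) ≤ ∫ x, (g x * c x * I x + ε) ∂(e n) := by
      refine integral_mono (ib _ (fe n) _ (1 / ε) mgc fun x => by
        rw [abs_of_nonneg (gc0 x)]; exact gc1 x) (i1.add (integrable_const ε)) fun x => ?_
      show g x * c x ≤ g x * c x * I x + ε
      by_cases hx : |x| ≤ R
      · have : I x = 1 := by rw [hI]; dsimp only; rw [if_pos hx]
        rw [this, mul_one]; linarith
      · have e7 : c x = ε := by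
          rw [hc]; dsimp only; rw [if_pos (not_le.1 hx)]
        have := mul_le_mul_of_nonneg_right (g1 x) ε0.le
        rw [e7]
        nlinarith [mul_nonneg (mul_nonneg (g0 x) ε0.le) (I0 x)]
    rw [integral_add i1 (integrable_const ε), integral_const, smul_eq_mul] at a3
    have a4 : (e n).real Set.univ * ε ≤ ε * (M + C) := by
      rw [mul_comm]; exact mul_le_mul_of_nonneg_left em ε0.le
    have a5 := (abs_le.1 a2).2
    linarith
  -- T3 + T4 + T5
  have gd : ∀ x, g x / c x ≤ g x / c x * (I x * J x) + ε + ε⁻¹ * (R ^ 2)⁻¹ * x ^ 2 := by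
    intro x
    have p1 : 0 ≤ ε⁻¹ * (R ^ 2)⁻¹ * x ^ 2 := by positivity
    have p2 : 0 ≤ g x / c x * (I x * J x) := mul_nonneg (gd0 x) (mul_nonneg (I0 x) (J0 x))
    by_cases hx : |x| ≤ R
    · have eI : I x = 1 := by rw [hI]; dsimp only; rw [if_pos hx]
      by_cases hbx : b ≤ |x|
      · have eJ : J x = 1 := by rw [hJ]; dsimp only; rw [if_pos hbx]
        rw [eI, eJ, mul_one, mul_one]; linarith
      · have e7 : c x = 1 / ε := by
          rw [hc]; dsimp only; rw [if_neg (not_lt.2 hx), if_pos (Or.inl (not_le.1 hbx))]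
        have e8 : g x / c x ≤ ε := by
          rw [e7, div_div_eq_mul_div, div_one]
          exact mul_le_of_le_one_left ε0.le (g1 x)
        linarith
    · have h5 : 1 ≤ (R ^ 2)⁻¹ * x ^ 2 := by
        rw [inv_mul_eq_div, le_div_iff₀ (by positivity), one_mul, ← sq_abs x]
        exact pow_le_pow_left₀ R0.le (not_le.1 hx).le 2
      have h6 : ε⁻¹ ≤ ε⁻¹ * (R ^ 2)⁻¹ * x ^ 2 := by
        rw [mul_assoc]; exact le_mul_of_one_le_right (by positivity) h5
      have h7 := gd1 x
      rw [one_div] at h7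
      linarith
  have gk0 : ∀ x, 0 ≤ g x / c x * (I x * J x) := fun x =>
    mul_nonneg (gd0 x) (mul_nonneg (I0 x) (J0 x))
  have gk1 : ∀ x, g x / c x * (I x * J x) ≤ 1 / ε := fun x => by
    have h5 : I x * J x ≤ 1 := by
      have := mul_le_mul (I1 x) (J1 x) (J0 x) zero_le_one
      linarith
    have := mul_le_mul (gd1 x) h5 (mul_nonneg (I0 x) (J0 x)) (by positivity)
    linarith
  have mk : Measurable fun x => g x / c x * (I x * J x) := mgd.mul (mI.mul mJ)
  have ik : ∀ τ : Measure ℝ, IsFiniteMeasure τ → Integrable (fun x => g x / c x * (I x * J x)) τ :=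
    fun τ hτ => ib τ hτ _ (1 / ε) mk fun x => by rw [abs_of_nonneg (gk0 x)]; exact gk1 x
  have T345 : ∫ x, g x / c x ∂(μ n) ≤
      (∫ x, g x / c x * (I x * J x) ∂ν) + δ / 8 + ε * V + δ / 8 := by
    have a1 := n2 (fun x => ε * (g x / c x * (I x * J x))) (mk.const_mul ε) (fun x => by
      rw [abs_of_nonneg (mul_nonneg ε0.le (gk0 x))]
      have h5 := mul_le_mul_of_nonneg_left (gk1 x) ε0.le
      have e6 : ε * (1 / ε) = 1 := by field_simp
      linarith) (fun x hx => by
      have : J x = 0 := by rw [hJ]; dsimp only; rw [if_neg (not_le.2 hx)]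
      rw [this]; ring)
    have e2 : ∀ τ : Measure ℝ, ∫ x, ε * (g x / c x * (I x * J x)) ∂τ =
        ε * ∫ x, g x / c x * (I x * J x) ∂τ := fun τ => integral_const_mul _ _
    rw [e2, e2, ← mul_sub, abs_mul, abs_of_pos ε0] at a1
    have a2 : |∫ x, g x / c x * (I x * J x) ∂(μ n) - ∫ x, g x / c x * (I x * J x) ∂ν| ≤ δ / 8 := by
      have : ε * |∫ x, g x / c x * (I x * J x) ∂(μ n) - ∫ x, g x / c x * (I x * J x) ∂ν| ≤
          ε * (δ / 8) := by linarith
      exact le_of_mul_le_mul_left this ε0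
    have j1 : Integrable (fun x => g x / c x * (I x * J x) + ε) (μ n) :=
      (ik _ (fμ n)).add (integrable_const ε)
    have j2 : Integrable (fun x => ε⁻¹ * (R ^ 2)⁻¹ * x ^ 2) (μ n) := (H.sq n).1.const_mul _
    have a3 : ∫ x, g x / c x ∂(μ n) ≤
        ∫ x, (g x / c x * (I x * J x) + ε + ε⁻¹ * (R ^ 2)⁻¹ * x ^ 2) ∂(μ n) :=
      integral_mono (ib _ (fμ n) _ (1 / ε) mgd fun x => by
        rw [abs_of_nonneg (gd0 x)]; exact gd1 x) (j1.add j2) gd
    rw [integral_add j1 j2, integral_add (ik _ (fμ n)) (integrable_const ε), integral_const,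
      smul_eq_mul, mm, integral_const_mul] at a3
    have a4 : ε⁻¹ * (R ^ 2)⁻¹ * ∫ x, x ^ 2 ∂(μ n) ≤ δ / 8 := by
      have h5 : ε⁻¹ * (R ^ 2)⁻¹ * ∫ x, x ^ 2 ∂(μ n) ≤ ε⁻¹ * (R ^ 2)⁻¹ * M :=
        mul_le_mul_of_nonneg_left (H.sq n).2 (by positivity)
      have h6 : ε⁻¹ * (R ^ 2)⁻¹ * M = ε⁻¹ * (M / R ^ 2) := by ring
      have h7 : ε⁻¹ * (M / R ^ 2) ≤ ε⁻¹ * (ε * δ / 8) := mul_le_mul_of_nonneg_left RM (by positivity)
      have h8 : ε⁻¹ * (ε * δ / 8) = δ / 8 := by field_simp
      linarith
    have a5 := (abs_le.1 a2).2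
    have a6 : V * ε = ε * V := mul_comm _ _
    linarith
  -- decomposition of the limit
  have T6 : ∫ x, g x / c x * (I x * J x) ∂ν ≤
      (∫ x, g x / c x * (I x * J x) * dens ν x) + ε * W := by
    have dec := Measure.haveLebesgueDecomposition_add ν volume
    have fs : IsFiniteMeasure (ν.singularPart volume) := inferInstance
    have fd : IsFiniteMeasure (volume.withDensity (ν.rnDeriv volume)) := inferInstance
    have e2 : ∫ x, g x / c x * (I x * J x) ∂ν =
        ∫ x, g x / c x * (I x * J x) ∂(ν.singularPart volume) +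
        ∫ x, g x / c x * (I x * J x) ∂(volume.withDensity (ν.rnDeriv volume)) := by
      conv_lhs => rw [dec]
      exact integral_add_measure (ik _ fs) (ik _ fd)
    have e3 : ∫ x, g x / c x * (I x * J x) ∂(volume.withDensity (ν.rnDeriv volume)) =
        ∫ x, g x / c x * (I x * J x) * dens ν x := by
      rw [integral_withDensity_eq_integral_toReal_smul₀
        (Measure.measurable_rnDeriv ν volume).aemeasurable (Measure.rnDeriv_lt_top ν volume)]
      congr 1
      funext x
      rw [smul_eq_mul, mul_comm]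
      rfl
    have e4 : ∫ x, g x / c x * (I x * J x) ∂(ν.singularPart volume) ≤ ε * W := by
      have a1 : ∫ x, g x / c x * (I x * J x) ∂(ν.singularPart volume) ≤
          ∫ _, ε ∂(ν.singularPart volume) := by
        refine integral_mono_ae (ik _ fs) (integrable_const ε) ?_
        have : ∀ᵐ x ∂(ν.singularPart volume), x ∉ s := by
          rw [ae_iff]
          simpa using hs1
        filter_upwards [this] with x hx
        by_cases hxR : |x| ≤ R
        · have e7 : c x = 1 / ε := by
            rw [hc]; dsimp only; rw [if_neg (not_lt.2 hxR), if_pos (Or.inr hx)]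
          rw [e7, div_div_eq_mul_div, div_one]
          have h5 : I x * J x ≤ 1 := by
            have := mul_le_mul (I1 x) (J1 x) (J0 x) zero_le_one
            linarith
          have h6 : g x * ε ≤ ε := mul_le_of_le_one_left ε0.le (g1 x)
          have := mul_le_mul h6 h5 (mul_nonneg (I0 x) (J0 x)) ε0.le
          linarith
        · have : I x = 0 := by rw [hI]; dsimp only; rw [if_neg hxR]
          rw [this]
          simp only [zero_mul, mul_zero]
          exact ε0.le
      rw [integral_const, smul_eq_mul] at a1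
      have a2 : (ν.singularPart volume).real Set.univ ≤ W := by
        rw [hW]
        exact ENNReal.toReal_mono (measure_ne_top _ _) (Measure.singularPart_le ν volume _)
      have a3 := mul_le_mul_of_nonneg_right a2 ε0.le
      linarith
    rw [e2, e3]
    linarith
  -- the pointwise inequality
  have df := dens_itg ν
  have i1 : Integrable (fun x => g x * c x * I x * bz ν x) := by
    refine (hb.1.const_mul (1 / ε)).mono' ((mgc.mul mI).mul mb).aestronglyMeasurable
      (ae_of_all _ fun x => ?_)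
    rw [Real.norm_eq_abs, abs_of_nonneg (mul_nonneg (mul_nonneg (gc0 x) (I0 x)) (bz_nn ν x))]
    refine mul_le_mul_of_nonneg_right ?_ (bz_nn ν x)
    have := mul_le_mul (gc1 x) (I1 x) (I0 x) (by positivity)
    linarith
  have i2 : Integrable (fun x => g x / c x * (I x * J x) * dens ν x) := by
    refine (df.const_mul (1 / ε)).mono' (mk.mul mf).aestronglyMeasurable (ae_of_all _ fun x => ?_)
    rw [Real.norm_eq_abs, abs_of_nonneg (mul_nonneg (gk0 x) (dens_nn ν x))]
    exact mul_le_mul_of_nonneg_right (gk1 x) (dens_nn ν x)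
  have i3 : Integrable (fun x => g x * √(dens ν x * bz ν x)) := by
    refine (df.add hb.1).mono' (mg.mul (mf.mul mb).sqrt).aestronglyMeasurable
      (ae_of_all _ fun x => ?_)
    have h5 := dens_nn ν x
    have h6 := bz_nn ν x
    rw [Real.norm_eq_abs, abs_of_nonneg (mul_nonneg (g0 x) (Real.sqrt_nonneg _))]
    show g x * √(dens ν x * bz ν x) ≤ dens ν x + bz ν x
    have h7 : √(dens ν x * bz ν x) ≤ dens ν x + bz ν x := by
      rw [Real.sqrt_le_left (by positivity)]
      nlinarith [mul_nonneg h5 h6, sq_nonneg (dens ν x), sq_nonneg (bz ν x)]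
    have := mul_le_mul (g1 x) h7 (Real.sqrt_nonneg _) zero_le_one
    linarith
  have i4 : Integrable (fun x => ε * (dens ν x + bz ν x)) := (df.add hb.1).const_mul ε
  have mS : MeasurableSet {x : ℝ | |x| < b} := measurableSet_lt mabs measurable_const
  have i5 : Integrable (fun x => (1 / (2 * ε)) * Set.indicator {x : ℝ | |x| < b} (bz ν) x) :=
    (hb.1.indicator mS).const_mul _
  have T7 : ((∫ x, g x * c x * I x * bz ν x) + ∫ x, g x / c x * (I x * J x) * dens ν x) / 2 ≤
      (∫ x, g x * √(dens ν x * bz ν x)) + ε * (F + B) + δ / 8 := by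
    have a1 : ∫ x, (g x * c x * I x * bz ν x + g x / c x * (I x * J x) * dens ν x) / 2 ≤
        ∫ x, (g x * √(dens ν x * bz ν x) + ε * (dens ν x + bz ν x) +
          (1 / (2 * ε)) * Set.indicator {x : ℝ | |x| < b} (bz ν) x) := by
      refine integral_mono_ae ((i1.add i2).div_const 2) ((i3.add i4).add i5) ?_
      have : ∀ᵐ x ∂(volume : Measure ℝ), x ∈ s := by
        rw [ae_iff]
        exact hs2
      filter_upwards [this] with x hx
      show (g x * c x * I x * bz ν x + g x / c x * (I x * J x) * dens ν x) / 2 ≤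
        g x * √(dens ν x * bz ν x) + ε * (dens ν x + bz ν x) +
          (1 / (2 * ε)) * Set.indicator {x : ℝ | |x| < b} (bz ν) x
      have h5 := dens_nn ν x
      have h6 := bz_nn ν x
      have p1 : 0 ≤ g x * √(dens ν x * bz ν x) := mul_nonneg (g0 x) (Real.sqrt_nonneg _)
      have p2 : 0 ≤ ε * (dens ν x + bz ν x) := by positivity
      have p3 : 0 ≤ (1 / (2 * ε)) * Set.indicator {x : ℝ | |x| < b} (bz ν) x :=
        mul_nonneg (by positivity) (Set.indicator_nonneg (fun y _ => bz_nn ν y) _)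
      by_cases hxR : |x| ≤ R
      · have eI : I x = 1 := by rw [hI]; dsimp only; rw [if_pos hxR]
        by_cases hbx : b ≤ |x|
        · have eJ : J x = 1 := by rw [hJ]; dsimp only; rw [if_pos hbx]
          have e7 : c x = cc ε (dens ν x) (bz ν x) := by
            rw [hc]; dsimp only
            rw [if_neg (not_lt.2 hxR), if_neg]
            rintro (h8 | h8)
            · exact absurd h8 (not_lt.2 hbx)
            · exact h8 hx
          have h8 := (cc_spec ε0 ε1 h5 h6).2.2
          rw [eI, eJ, mul_one, mul_one, mul_one, e7]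
          have h9 := mul_le_mul_of_nonneg_left h8 (g0 x)
          have h10 : g x * (ε * (dens ν x + bz ν x)) ≤ ε * (dens ν x + bz ν x) :=
            mul_le_of_le_one_left p2 (g1 x)
          have e8 : (g x * cc ε (dens ν x) (bz ν x) * bz ν x +
              g x / cc ε (dens ν x) (bz ν x) * dens ν x) / 2 =
              g x * ((cc ε (dens ν x) (bz ν x) * bz ν x +
                dens ν x / cc ε (dens ν x) (bz ν x)) / 2) := by ring
          rw [e8]
          linarith
        · have eJ : J x = 0 := by rw [hJ]; dsimp only; rw [if_neg hbx]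
          have e7 : c x = 1 / ε := by
            rw [hc]; dsimp only; rw [if_neg (not_lt.2 hxR), if_pos (Or.inl (not_le.1 hbx))]
          rw [eI, eJ, e7, Set.indicator_of_mem (show x ∈ {x : ℝ | |x| < b} from not_le.1 hbx)]
          have h8 : g x * (1 / ε) * 1 * bz ν x ≤ (1 / ε) * bz ν x := by
            rw [mul_one]
            refine mul_le_mul_of_nonneg_right ?_ h6
            exact mul_le_of_le_one_left (by positivity) (g1 x)
          have e8 : (1 / (2 * ε)) * bz ν x = ((1 / ε) * bz ν x) / 2 := by field_simp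
          have e9 : g x / (1 / ε) * (1 * 0) * dens ν x = 0 := by ring
          rw [e8, e9]
          linarith
      · have eI : I x = 0 := by rw [hI]; dsimp only; rw [if_neg hxR]
        rw [eI]
        simp only [zero_mul, mul_zero, add_zero, zero_div]
        linarith
    have e1' : ∫ x, (g x * c x * I x * bz ν x + g x / c x * (I x * J x) * dens ν x) / 2 =
        ((∫ x, g x * c x * I x * bz ν x) + ∫ x, g x / c x * (I x * J x) * dens ν x) / 2 := by
      rw [integral_div, integral_add i1 i2]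
    have e2' : ∫ x, (g x * √(dens ν x * bz ν x) + ε * (dens ν x + bz ν x) +
          (1 / (2 * ε)) * Set.indicator {x : ℝ | |x| < b} (bz ν) x) =
        (∫ x, g x * √(dens ν x * bz ν x)) + ε * (F + B) +
          (1 / (2 * ε)) * ∫ x in {x : ℝ | |x| < b}, bz ν x := by
      have j1 : ∫ x, (g x * √(dens ν x * bz ν x) + ε * (dens ν x + bz ν x)) =
          (∫ x, g x * √(dens ν x * bz ν x)) + ε * (F + B) := by
        rw [integral_add i3 i4, integral_const_mul, hF, hB]
        congr 2
        exact integral_add df hb.1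
      have j2 := integral_add (i3.add i4) i5
      have j3 : ∫ x, (1 / (2 * ε)) * Set.indicator {x : ℝ | |x| < b} (bz ν) x =
          (1 / (2 * ε)) * ∫ x in {x : ℝ | |x| < b}, bz ν x := by
        rw [integral_const_mul, integral_indicator mS]
      rw [← j1, ← j3]
      exact j2
    rw [e1', e2'] at a1
    have a2 : (1 / (2 * ε)) * ∫ x in {x : ℝ | |x| < b}, bz ν x ≤ (1 / (2 * ε)) * (ε * δ / 4) :=
      mul_le_mul_of_nonneg_left hb2 (by positivity)
    have a3 : (1 / (2 * ε)) * (ε * δ / 4) = δ / 8 := by field_simp; ring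
    linarith
  have fin : ε * (F + B) + ε * (M + C) / 2 + ε * V / 2 + ε * W / 2 ≤ δ / 4 := by
    have : ε * (F + B) + ε * (M + C) / 2 + ε * V / 2 + ε * W / 2 ≤ ε * K := by
      rw [hK]
      have p1 : 0 ≤ ε * (M + C) := by positivity
      have p2 : 0 ≤ ε * V := by positivity
      have p3 : 0 ≤ ε * W := by positivity
      nlinarith
    linarith
  linarith

end

end Pool.Agent.Helper82.BW
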