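import Pool.Agent.Helper82.BW.Bz

/-!
# The energy law on compact sets of values, for an arbitrary limit law
-/

set_option autoImplicit false
open MeasureTheory Filter Topology
open scoped ENNReal NNReal BoundedContinuousFunction ContDiff

namespace Pool.Agent.Helper82.BW

noncomputable section

open Pool.Agent.N252.TV

section
variable {μ : ℕ → Measure ℝ} [∀ n, IsFiniteMeasure (μ n)] {ν : Measure ℝ} [IsFiniteMeasure ν]

lemma fatou2 (hw : ∀ g : ℝ →ᵇ ℝ, Tendsto (fun n => ∫ x, g x ∂(μ n)) atTop (𝓝 (∫ x, g x ∂ν)))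
    {M : ℝ} (hM : ∀ n, Integrable (fun x => x ^ 2) (μ n) ∧ ∫ x, x ^ 2 ∂(μ n) ≤ M) :
    Integrable (fun x => x ^ 2) ν ∧ ∫ x, x ^ 2 ∂ν ≤ M := by
  have M0 : 0 ≤ M := (integral_nonneg fun x => sq_nonneg x).trans (hM 0).2
  obtain ⟨F, hF⟩ : ∃ F : ℕ → ℝ → ℝ, ∀ m x, F m x = min (x ^ 2) m := ⟨_, fun _ _ => rfl⟩
  have cF : ∀ m, Continuous (F m) := fun m => by
    have : F m = fun x : ℝ => min (x ^ 2) m := funext (hF m)
    rw [this]; fun_prop
  have F0 : ∀ m x, 0 ≤ F m x := fun m x => by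
    rw [hF]; exact le_min (sq_nonneg _) (Nat.cast_nonneg _)
  have F1 : ∀ m x, F m x ≤ m := fun m x => by rw [hF]; exact min_le_right _ _
  have Fa : ∀ m x, |F m x| ≤ m := fun m x => by rw [abs_of_nonneg (F0 m x)]; exact F1 m x
  have h1 : ∀ m, ∫ x, F m x ∂ν ≤ M := by
    intro m
    have h2 : Tendsto (fun n => ∫ x, F m x ∂(μ n)) atTop (𝓝 (∫ x, F m x ∂ν)) :=
      hw (BoundedContinuousFunction.ofNormedAddCommGroup (F m) (cF m) m (Fa m))
    refine le_of_tendsto' h2 fun n => ?_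
    refine le_trans (integral_mono (Integrable.of_bound (cF m).aestronglyMeasurable m
      (ae_of_all _ (Fa m))) (hM n).1 fun x => ?_) (hM n).2
    rw [hF]
    exact min_le_left _ _
  have h2 : ∫⁻ x : ℝ, ENNReal.ofReal (x ^ 2) ∂ν ≤ ENNReal.ofReal M := by
    have e : ∀ x : ℝ, ENNReal.ofReal (x ^ 2) =
        liminf (fun m : ℕ => ENNReal.ofReal (F m x)) atTop := by
      intro x
      refine (Tendsto.liminf_eq ?_).symm
      refine tendsto_const_nhds.congr' ?_
      filter_upwards [eventually_ge_atTop ⌈x ^ 2⌉₊] with m hm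
      rw [hF, min_eq_left ((Nat.le_ceil _).trans (by exact_mod_cast hm))]
    simp only [e]
    refine (lintegral_liminf_le fun m => (cF m).measurable.ennreal_ofReal).trans ?_
    refine liminf_le_of_frequently_le' (Frequently.of_forall fun m => ?_)
    rw [← ofReal_integral_eq_lintegral_ofReal (Integrable.of_bound (cF m).aestronglyMeasurable m
      (ae_of_all _ (Fa m))) (ae_of_all _ (F0 m))]
    exact ENNReal.ofReal_le_ofReal (h1 m)
  have i1 : Integrable (fun x : ℝ => x ^ 2) ν := by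
    refine ⟨(by fun_prop : Continuous fun x : ℝ => x ^ 2).aestronglyMeasurable, ?_⟩
    rw [hasFiniteIntegral_iff_ofReal (ae_of_all _ fun x => sq_nonneg x)]
    exact lt_of_le_of_lt h2 ENNReal.ofReal_lt_top
  refine ⟨i1, ?_⟩
  rw [← ofReal_integral_eq_lintegral_ofReal i1 (ae_of_all _ fun x => sq_nonneg x)] at h2
  exact (ENNReal.ofReal_le_ofReal_iff M0).1 h2

lemma unif_G (hw : ∀ g : ℝ →ᵇ ℝ, Tendsto (fun n => ∫ x, g x ∂(μ n)) atTop (𝓝 (∫ x, g x ∂ν)))
    {M : ℝ} (hM : ∀ n, Integrable (fun x => x ^ 2) (μ n) ∧ ∫ x, x ^ 2 ∂(μ n) ≤ M) {L Q δ : ℝ}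
    (hL : 0 ≤ L) (hQ : 0 ≤ Q) (hδ : 0 < δ) :
    ∀ᶠ n in atTop, ∀ G : ℝ → ℝ, (∀ x, |G x| ≤ Q) → (∀ x y, |G x - G y| ≤ L * |x - y|) →
      |∫ t, t * G t ∂(μ n) - ∫ t, t * G t ∂ν| ≤ δ := by
  have M0 : 0 ≤ M := (integral_nonneg fun x => sq_nonneg x).trans (hM 0).2
  have hν := fatou2 hw hM
  obtain ⟨T, hT⟩ : ∃ T : ℝ, T = 4 * Q * M / δ + 1 := ⟨_, rfl⟩
  have T0 : 0 < T := by rw [hT]; positivity
  obtain ⟨c, hc⟩ : ∃ c : ℝ → ℝ, c = fun t => max (-T) (min T t) := ⟨_, rfl⟩
  have cb : ∀ t, |c t| ≤ T := fun t => by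
    rw [hc, abs_le]
    exact ⟨le_max_left _ _, max_le (by linarith) (min_le_left _ _)⟩
  have cl : ∀ s t, |c s - c t| ≤ |s - t| := by
    intro s t
    rw [hc]
    refine (abs_max_sub_max_le_max _ _ _ _).trans ?_
    rw [sub_self, abs_zero]
    refine max_le (abs_nonneg _) ?_
    refine (abs_min_sub_min_le_max _ _ _ _).trans ?_
    rw [sub_self, abs_zero]
    exact max_le (abs_nonneg _) le_rfl
  have cd : ∀ t, |t - c t| ≤ T⁻¹ * t ^ 2 := by
    intro t
    rcases le_or_gt |t| T with h | h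
    · have h1 := abs_le.1 h
      have : c t = t := by
        rw [hc]
        show max (-T) (min T t) = t
        rw [min_eq_right h1.2, max_eq_right h1.1]
      rw [this, sub_self, abs_zero]; positivity
    · have h1 : |t - c t| ≤ |t| := by
        rw [hc]
        show |t - max (-T) (min T t)| ≤ |t|
        rcases lt_abs.1 h with h2 | h2
        · rw [min_eq_left h2.le, max_eq_right (by linarith), abs_of_nonneg (by linarith),
            abs_of_pos (by linarith)]
          linarith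
        · rw [min_eq_right (by linarith), max_eq_left (by linarith), abs_of_nonpos (by linarith),
            abs_of_neg (by linarith)]
          linarith
      refine h1.trans ?_
      rw [inv_mul_eq_div, le_div_iff₀ T0, ← sq_abs t]
      nlinarith [abs_nonneg t]
  have key := unif_lip hw (K := T * L + Q) (M := T * Q) (by positivity) (by positivity)
    (by positivity : 0 < δ / 2)
  filter_upwards [key] with n hn G hG1 hG2
  have cG : Continuous G := by
    have : LipschitzWith (Real.toNNReal L) G := LipschitzWith.of_dist_le_mul fun x y => by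
      rw [Real.dist_eq, Real.dist_eq, Real.coe_toNNReal _ hL]
      exact hG2 x y
    exact this.continuous
  have cc : Continuous c := by rw [hc]; fun_prop
  have k1 : ∀ t, |c t * G t| ≤ T * Q := fun t => by
    rw [abs_mul]
    exact mul_le_mul (cb t) (hG1 t) (abs_nonneg _) T0.le
  have k2 : ∀ s t, |c s * G s - c t * G t| ≤ (T * L + Q) * |s - t| := by
    intro s t
    have e : c s * G s - c t * G t = c s * (G s - G t) + (c s - c t) * G t := by ring
    rw [e]
    refine (abs_add_le _ _).trans ?_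
    rw [abs_mul, abs_mul]
    have a1 := mul_le_mul (cb s) (hG2 s t) (abs_nonneg _) T0.le
    have a2 := mul_le_mul (cl s t) (hG1 t) (abs_nonneg _) (abs_nonneg _)
    nlinarith
  have n1 := hn (fun t => c t * G t) k1 k2
  have d1 : ∀ τ : Measure ℝ, IsFiniteMeasure τ → (Integrable (fun x => x ^ 2) τ ∧
      ∫ x, x ^ 2 ∂τ ≤ M) → |∫ t, t * G t ∂τ - ∫ t, c t * G t ∂τ| ≤ δ / 4 := by
    intro τ hτ h2
    have i1 : Integrable (fun t => t * G t) τ := by
      refine ((int_abs h2.1).const_mul Q).mono' (by fun_prop) (ae_of_all _ fun t => ?_)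
      rw [Real.norm_eq_abs, abs_mul, mul_comm]
      exact mul_le_mul_of_nonneg_right (hG1 t) (abs_nonneg _)
    have i2 : Integrable (fun t => c t * G t) τ :=
      Integrable.of_bound (cc.mul cG).aestronglyMeasurable (T * Q) (ae_of_all _ k1)
    rw [← integral_sub i1 i2]
    refine (abs_integral_le_integral_abs).trans ?_
    have h3 : ∫ t, |t * G t - c t * G t| ∂τ ≤ ∫ t, Q * T⁻¹ * t ^ 2 ∂τ := by
      refine integral_mono (i1.sub i2).abs (h2.1.const_mul _) fun t => ?_
      show |t * G t - c t * G t| ≤ Q * T⁻¹ * t ^ 2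
      rw [← sub_mul, abs_mul]
      have := mul_le_mul (cd t) (hG1 t) (abs_nonneg _) (by positivity)
      linarith
    rw [integral_const_mul] at h3
    refine h3.trans ?_
    have h4 : Q * T⁻¹ * ∫ x, x ^ 2 ∂τ ≤ Q * T⁻¹ * M := mul_le_mul_of_nonneg_left h2.2 (by positivity)
    refine h4.trans ?_
    rw [mul_assoc, mul_comm T⁻¹ M, ← mul_assoc, ← div_eq_mul_inv, div_le_iff₀ T0, hT]
    have e : δ / 4 * (4 * Q * M / δ + 1) = Q * M + δ / 4 := by field_simp
    rw [e]; linarith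
  have e1 := d1 (μ n) inferInstance (hM n)
  have e2 := d1 ν inferInstance hν
  rw [abs_le] at n1 e1 e2 ⊢
  constructor <;> linarith [n1.1, n1.2, e1.1, e1.2, e2.1, e2.2]

end

/-- the primitive of a function which vanishes outside `[-S, S]` -/
lemma Pm_bd {g : ℝ → ℝ} (cg : Continuous g) {S K : ℝ} (hS : 0 ≤ S) (hK : ∀ x, |g x| ≤ K)
    (h0 : ∀ x, S < |x| → g x = 0) (x : ℝ) : |Pm g x| ≤ K * S := by
  have K0 : 0 ≤ K := (abs_nonneg _).trans (hK 0)
  have p0 : Pm g 0 = 0 := by unfold Pm; simp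
  have base : ∀ y, |y| ≤ S → |Pm g y| ≤ K * S := by
    intro y hy
    have := Pm_lip cg hK 0 y
    rw [p0, sub_zero, sub_zero] at this
    exact this.trans (mul_le_mul_of_nonneg_left hy K0)
  rcases le_or_gt |x| S with h | h
  · exact base x h
  · rcases lt_abs.1 h with h2 | h2
    · have e : Pm g x - Pm g S = 0 := by
        rw [Pm_sub cg]
        refine intervalIntegral.integral_zero_ae (ae_of_all _ fun t ht => ?_)
        rw [Set.uIoc_of_le h2.le] at ht
        exact h0 t (lt_of_lt_of_le ht.1 (le_abs_self t))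
      have e2 : Pm g x = Pm g S := by linarith
      rw [e2]
      exact base S (by rw [abs_of_nonneg hS])
    · have e : Pm g (-S) - Pm g x = 0 := by
        rw [Pm_sub cg]
        have hle : x ≤ -S := by linarith
        rw [intervalIntegral.integral_of_le hle]
        rw [← integral_Ico_eq_integral_Ioc]
        refine setIntegral_eq_zero_of_forall_eq_zero fun t ht => ?_
        refine h0 t (lt_of_lt_of_le (by linarith [ht.2] : S < -t) (neg_le_abs t))
      have e2 : Pm g x = Pm g (-S) := by linarith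
      rw [e2]
      exact base (-S) (by rw [abs_neg, abs_of_nonneg hS])

variable {μ e : ℕ → Measure ℝ} {V M C : ℝ} {h : ℕ → ℝ}

/-- smooth test functions -/
lemma loc_smooth (H : Pair μ e V M C h) {ν : Measure ℝ} [IsFiniteMeasure ν]
    (hw : ∀ g : ℝ →ᵇ ℝ, Tendsto (fun n => ∫ x, g x ∂(μ n)) atTop (𝓝 (∫ x, g x ∂ν)))
    {S : ℝ} (hS : 0 ≤ S) {δ : ℝ} (hδ : 0 < δ) :
    ∀ᶠ n in atTop, ∀ g : ℝ → ℝ, ContDiff ℝ ∞ g → (∀ x, |g x| ≤ 2) → (∀ x, S < |x| → g x = 0) →
      |∫ x, g x ∂(e n) - ∫ x, g x * bz ν x| ≤ δ := by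
  have fμ := H.fμ
  have h2 := fatou2 hw H.sq
  have k1 := unif_G hw H.sq (L := 2) (Q := 2 * S) (δ := δ / 2) (by norm_num) (by positivity)
    (by positivity)
  have k2 : ∀ᶠ n in atTop, 2 * S * (C * h n) < δ / 2 := by
    have h3 := H.Ch.const_mul (2 * S)
    rw [mul_zero] at h3
    exact h3.eventually_lt_const (by positivity)
  filter_upwards [k1, k2] with n n1 n2 g sg g2 g0
  have b1 := Pm_bd sg.continuous hS g2 g0
  have a1 := H.id n (Pm g) (2 * S) 2 (Pm_sm sg) b1 (fun x => by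
    rw [(Pm_d sg.continuous x).deriv]; exact g2 x)
  have e1 : deriv (Pm g) = g := funext fun x => (Pm_d sg.continuous x).deriv
  rw [e1] at a1
  have a2 := n1 (Pm g) b1 (fun x y => by
    have := Pm_lip sg.continuous g2 y x
    exact this)
  have a3 := (bz_fub ν h2.1 sg.continuous.measurable g2).2
  have a4 : ∫ t, t * (∫ s in (0 : ℝ)..t, g s) ∂ν = ∫ t, t * Pm g t ∂ν := rfl
  rw [a3, a4]
  rw [abs_le] at a1 a2 ⊢
  constructor <;> linarith [a1.1, a1.2, a2.1, a2.2]

/-- **The energy law on compact sets of values.** -/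
theorem loc (H : Pair μ e V M C h) {ν : Measure ℝ} [IsFiniteMeasure ν]
    (hw : ∀ g : ℝ →ᵇ ℝ, Tendsto (fun n => ∫ x, g x ∂(μ n)) atTop (𝓝 (∫ x, g x ∂ν)))
    {R : ℝ} (hR : 0 ≤ R) {δ : ℝ} (hδ : 0 < δ) :
    ∀ᶠ n in atTop, ∀ g : ℝ → ℝ, Measurable g → (∀ x, |g x| ≤ 1) → (∀ x, R < |x| → g x = 0) →
      |∫ x, g x ∂(e n) - ∫ x, g x * bz ν x| ≤ δ := by
  have fμ := H.fμ
  have fe := H.fe
  have h2 := fatou2 hw H.sq
  have hb := bz_itg ν h2.1
  obtain ⟨η, hη⟩ : ∃ η : Measure ℝ, η = volume.withDensity fun x => ENNReal.ofReal (bz ν x) :=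
    ⟨_, rfl⟩
  have fη : IsFiniteMeasure η := by
    rw [hη]; exact isFiniteMeasure_withDensity_ofReal hb.1.2
  have ηI : ∀ f : ℝ → ℝ, ∫ x, f x ∂η = ∫ x, f x * bz ν x := by
    intro f
    rw [hη, integral_withDensity_eq_integral_toReal_smul₀ hb.1.aemeasurable.ennreal_ofReal
      (ae_of_all _ fun z => ENNReal.ofReal_lt_top)]
    congr 1
    funext x
    rw [ENNReal.toReal_ofReal (bz_nn ν x), smul_eq_mul, mul_comm]
  obtain ⟨χ, sχ, kχ, tχ, χ1, χ0, χl⟩ := exists_cutR (U := Set.Ioo (-(R + 1)) (R + 1))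
    (K := Set.Icc (-R) R) isOpen_Ioo isCompact_Icc (fun x hx => ⟨by linarith [hx.1], by linarith [hx.2]⟩)
  filter_upwards [loc_smooth H hw (S := R + 1) (by linarith) (by positivity : 0 < δ / 2)]
    with n hn g mg g1 g0
  obtain ⟨f, sf, kf, f2, hf⟩ := exists_app (e n + η) mg g1 (by positivity : 0 < δ / 4)
  have sF : ContDiff ℝ ∞ (fun x => χ x * f x) := sχ.mul sf
  have bF : ∀ x, |χ x * f x| ≤ 2 := fun x => by
    rw [abs_mul, abs_of_nonneg (χ0 x)]
    have := mul_le_mul (χl x) (f2 x) (abs_nonneg _) zero_le_one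
    linarith
  have zF : ∀ x, R + 1 < |x| → χ x * f x = 0 := by
    intro x hx
    have : x ∉ tsupport χ := fun h => by
      have h3 := tχ h
      have : |x| ≤ R + 1 := abs_le.2 ⟨h3.1.le, h3.2.le⟩
      linarith
    rw [image_eq_zero_of_notMem_tsupport this, zero_mul]
  have h3 := hn _ sF bF zF
  have pt : ∀ x, |g x - χ x * f x| ≤ |g x - f x| := by
    intro x
    have e1 : g x = χ x * g x := by
      rcases le_or_gt |x| R with h4 | h4
      · rw [χ1 x (abs_le.1 h4), one_mul]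
      · rw [g0 x h4, mul_zero]
    have e2 : g x - χ x * f x = χ x * (g x - f x) := by rw [mul_sub, ← e1]
    rw [e2, abs_mul, abs_of_nonneg (χ0 x)]
    exact mul_le_of_le_one_left (abs_nonneg _) (χl x)
  have cF : Continuous fun x => χ x * f x := sF.continuous
  have ig : ∀ τ : Measure ℝ, IsFiniteMeasure τ → Integrable g τ := fun τ _ =>
    Integrable.of_bound mg.aestronglyMeasurable 1 (ae_of_all _ g1)
  have iF : ∀ τ : Measure ℝ, IsFiniteMeasure τ → Integrable (fun x => χ x * f x) τ := fun τ _ =>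
    Integrable.of_bound cF.aestronglyMeasurable 2 (ae_of_all _ bF)
  have jf : ∀ τ : Measure ℝ, IsFiniteMeasure τ → Integrable (fun x => |g x - f x|) τ := fun τ hτ =>
    ((ig τ hτ).sub (Integrable.of_bound sf.continuous.aestronglyMeasurable 2 (ae_of_all _ f2))).abs
  have dd : ∀ τ : Measure ℝ, IsFiniteMeasure τ →
      |∫ x, g x ∂τ - ∫ x, χ x * f x ∂τ| ≤ ∫ x, |g x - f x| ∂τ := by
    intro τ hτ
    rw [← integral_sub (ig τ hτ) (iF τ hτ)]
    refine (abs_integral_le_integral_abs).trans ?_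
    exact integral_mono ((ig τ hτ).sub (iF τ hτ)).abs (jf τ hτ) pt
  rw [integral_add_measure (jf _ (fe n)) (jf _ fη)] at hf
  have p1 := dd (e n) (fe n)
  have p2 := dd η fη
  have p3 : 0 ≤ ∫ x, |g x - f x| ∂(e n) := integral_nonneg fun _ => abs_nonneg _
  have p4 : 0 ≤ ∫ x, |g x - f x| ∂η := integral_nonneg fun _ => abs_nonneg _
  rw [ηI, ηI] at p2
  rw [abs_le] at h3 p1 p2 ⊢
  constructor <;> linarith [h3.1, h3.2, p1.1, p1.2, p2.1, p2.2]

end

end Pool.Agent.Helper82.BW
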